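import Pool.Agent.Helper20.ZD.Bdd
import Pool.Agent.Helper20.ZD.Main

/-! # Unlikely intersections excluded by several places -/

open MvPolynomial Finset

namespace Pool.Agent.Helper69.ZD
open Pool.Agent.Helper11.ZP Pool.Agent.Helper11.ZU Pool.Agent.Helper20.ZT Pool.Agent.Helper20.ZT.Prim
  Pool.Agent.Helper20.ZD

variable {n : ℕ}

/-- at every point of `V` at most `d` coordinates are not in `Δ` and are in `J` or not in `Ω` -/
def AtMostFor (J : Finset (Fin n)) (d : ℕ) (Δ Ω : Set ℂ) (V : Set (Fin n → ℂ)) : Prop :=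
  ∀ x ∈ V, ∀ T : Finset (Fin n), (∀ i ∈ T, x i ∉ Δ ∧ (i ∈ J ∨ x i ∉ Ω)) → T.card ≤ d

/-- no element of `Δ` is isogenous to an element of `Ω` -/
def Separated (Δ Ω : Set ℂ) : Prop := ∀ x ∈ Δ, ∀ y ∈ Ω, ∀ N : ℕ, 0 < N → ¬ CyclicIsog N y x

/-- for every set of `d + 1` coordinates there are an isogeny-bounded set `Δ` and a set `Ω` which is not
isogenous to `Δ` such that at every point of `V` at most `d` coordinates are not in `Δ` and are in `J`
or not in `Ω` -/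
def LocallyAtMost (d : ℕ) (V : Set (Fin n → ℂ)) : Prop :=
  ∀ J : Finset (Fin n), J.card = d + 1 → ∃ Δ Ω : Set ℂ, IsogenyBounded Δ ∧ Separated Δ Ω ∧
    AtMostFor J d Δ Ω V

lemma AtMost.locally {d : ℕ} {Δ : Set ℂ} {V : Set (Fin n → ℂ)} (h : AtMost d Δ V)
    (hΔ : IsogenyBounded Δ) : LocallyAtMost d V :=
  fun _ _ => ⟨Δ, ∅, hΔ, fun _ _ _ hy => absurd hy (Set.notMem_empty _),
    fun x hx T hT => h x hx T fun i hi => (hT i hi).1⟩

/-- the valuation ring is separated from the discs outside it -/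
lemma separated_discs {v : AbsoluteValue ℂ ℝ} (hv : IsNonarchimedean v) {F : Finset ℂ} {ρ : ℝ}
    (hF : ∀ c ∈ F, 1 < v c) (hρ : ρ < 1) : Separated (discs v F ρ) {y | v y ≤ 1} := by
  rintro x ⟨c, hc, hx⟩ y hy N hN h
  have hm : Fact (0 < (N : ℤ)) := ⟨by exact_mod_cast hN⟩
  have h1 := (cyclicIsog_iff hN).1 h
  have h2 : x ∈ vring v hv := mem_of_rel (K := ℂ) (vring v hv) (primPoly_monic (N : ℤ))
    (mem_vring.2 hy) h1
  have h3 := mem_vring.1 h2
  rw [v_disc hv hρ (hF c hc) hx] at h3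
  exact absurd (hF c hc) (not_lt.2 h3)

/-- **the key statement** -/
theorem exists_pair_local {Δ Ω : Set ℂ} (hΔ : ∀ x ∈ Δ, ¬ IsSpecialPoint x) (hΩ : Separated Δ Ω)
    {d : ℕ} {S : SpecialData n} {x : Fin n → ℂ} {B : Finset (Fin S.r)}
    (hxS : x ∈ S.carrier) (hspec : ∀ i s, S.cls i = some s → s ∈ B → IsSpecialPoint (x i))
    {J : Finset (Fin n)}
    (hJT : ∀ T : Finset (Fin n), T.card ≤ d →
      (∀ i ∈ J, i ∉ T → ∃ s, s ∉ B ∧ S.cls i = some s) →
        ∃ (i j : Fin n) (s : Fin S.r), i ∈ J ∧ i ≠ j ∧ i ∉ T ∧ j ∉ T ∧ S.cls i = some s ∧ S.cls j = some s)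
    (hx : ∀ T : Finset (Fin n), (∀ i ∈ T, x i ∉ Δ ∧ (i ∈ J ∨ x i ∉ Ω)) → T.card ≤ d) :
    ∃ (i j : Fin n) (s : Fin S.r), i ≠ j ∧ S.cls i = some s ∧ S.cls j = some s ∧ x i ∈ Δ ∧ x j ∈ Δ := by
  classical
  set T : Finset (Fin n) := univ.filter fun i => x i ∉ Δ ∧ (i ∈ J ∨ x i ∉ Ω) with hT
  have hTd : T.card ≤ d := hx T fun i hi => (mem_filter.1 hi).2
  have hmem : ∀ i, i ∉ T → x i ∈ Δ ∨ (i ∉ J ∧ x i ∈ Ω) := by
    intro i hi
    by_contra hcon
    push Not at hcon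
    exact hi (mem_filter.2 ⟨mem_univ _, hcon.1, by
      by_cases hJ : i ∈ J
      · exact Or.inl hJ
      · exact Or.inr (hcon.2 hJ)⟩)
  have hmemJ : ∀ i ∈ J, i ∉ T → x i ∈ Δ := by
    intro i hi hiT
    rcases hmem i hiT with h | h
    · exact h
    · exact absurd hi h.1
  obtain ⟨i, j, s, hiJ, hij, hiT, hjT, hi, hj⟩ := hJT T hTd (by
    intro i hi hiT
    have hxi := hmemJ i hi hiT
    rcases h : S.cls i with _ | s
    · exfalso
      apply hΔ _ hxi
      rw [hxS.1 i h]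
      exact S.hc i h
    · exact ⟨s, fun hs => hΔ _ hxi (hspec i s h hs), rfl⟩)
  have hxi := hmemJ i hiJ hiT
  refine ⟨i, j, s, hij, hi, hj, hxi, ?_⟩
  rcases hmem j hjT with h | ⟨-, h⟩
  · exact h
  · exfalso
    obtain ⟨N, hN, h1⟩ := class_isog S hj hi
    exact hΩ _ hxi _ h N hN (h1 x hxS)

/-- **special subvarieties with unlikely intersections lie in finitely many special hypersurfaces** -/
theorem cover_local {d : ℕ} {V : Set (Fin n → ℂ)} (hV : LocallyAtMost d V) :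
    ∃ M : ℕ, ∀ (S : SpecialData n) (A : Set (Fin n → ℂ)), IsSubvariety A → A ⊆ V ∩ S.carrier →
      d + dim S.carrier < dim A + n → ∃ (i j : Fin n) (N : ℕ), i ≠ j ∧ 0 < N ∧ N ≤ M ∧
        ∀ x ∈ S.carrier, CyclicIsog N (x i) (x j) := by
  classical
  choose Δ Ω hΔ hΩ hA using hV
  choose M hM using fun J hJ => (hΔ J hJ).bounded
  let 𝒥 : Finset (Finset (Fin n)) := Finset.univ.filter fun J => J.card = d + 1
  have hmem : ∀ J, J ∈ 𝒥 → J.card = d + 1 := fun J hJ => (Finset.mem_filter.1 hJ).2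
  refine ⟨𝒥.attach.sup fun J => M J.1 (hmem J.1 J.2), fun S A hAv hAVS hd => ?_⟩
  have hr := S.le_dim
  obtain ⟨x, B, hx, hB, hspec⟩ := exists_special_classes hAv S fun y hy => (hAVS hy).2
  obtain ⟨J, hJ, hJT⟩ := comb S.cls S.surj B (d := d) (by rw [hB]; omega)
  obtain ⟨i, j, s, hij, hi, hj, hxi, hxj⟩ := exists_pair_local (hΔ J hJ).special
    (hΩ J hJ) (hAVS hx).2 hspec hJT (hA J hJ x (hAVS hx).1)
  obtain ⟨N, hN, h⟩ := class_isog S hi hj
  refine ⟨i, j, N, hij, hN, (hM J hJ _ hxi _ hxj _ (h x (hAVS hx).2)).trans ?_, h⟩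
  exact Finset.le_sup (f := fun J : 𝒥 => M J.1 (hmem J.1 J.2))
    (mem_attach 𝒥 ⟨J, mem_filter.2 ⟨mem_univ _, hJ⟩⟩)

/-- **the atypical subvarieties are not dense** -/
theorem notDense_local {V : Set (Fin n → ℂ)} (hV : IsSubvariety V) (hVΔ : LocallyAtMost (dim V) V)
    (hVS : ∀ S : SpecialData n, dim S.carrier < n → ¬ V ⊆ S.carrier) : AtypicalNotDense V := by
  obtain ⟨M, hM⟩ := cover_local hVΔ
  refine ⟨levelPoly n M, ?_, ?_⟩
  · by_contra hcon
    push Not at hcon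
    obtain ⟨i, j, N, hij, hN, -, h⟩ := exists_of_levelPoly (M := M) hV (mem_van.2 hcon)
    exact hVS _ (dim_hypData hN hij) fun x hx => (mem_hypData hN hij x).2 (h x hx)
  · rintro A ⟨S, ⟨hA, hAVS, -⟩, hlt⟩ x hx
    obtain ⟨i, j, N, hij, hN, hNM, h⟩ := hM S A hA hAVS hlt
    exact eval_levelPoly hij hN hNM (h x (hAVS hx).2)

/-- **Zilber–Pink for curves** -/
theorem zp_curve_local {C : Set (Fin n → ℂ)} (hC : IsSubvariety C) (h1 : dim C = 1)
    (hCΔ : LocallyAtMost 1 C) :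
    {A | IsAtypical C A ∧ ∀ B, IsAtypical C B → A ⊆ B → B = A}.Finite :=
  finite_max hC h1 fun hCS => notDense_local hC (by rwa [h1]) hCS

/-- **several places**: for every set `J` of `d + 1` coordinates there are a place `v` and discs outside
its valuation ring such that at every point of `V` all but `d` coordinates are in the discs, or
`v`-integral and not in `J` -/
theorem locally_of_places {d : ℕ} {V : Set (Fin n → ℂ)}
    (h : ∀ J : Finset (Fin n), J.card = d + 1 → ∃ (v : AbsoluteValue ℂ ℝ) (F : Finset ℂ) (ρ : ℝ),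
      IsNonarchimedean v ∧ (∀ c ∈ F, 1 < v c) ∧ ρ < 1 ∧ ∀ x ∈ V, ∀ T : Finset (Fin n),
        (∀ i ∈ T, x i ∉ discs v F ρ ∧ (i ∈ J ∨ 1 < v (x i))) → T.card ≤ d) : LocallyAtMost d V := by
  intro J hJ
  obtain ⟨v, F, ρ, hv, hF, hρ, h⟩ := h J hJ
  refine ⟨discs v F ρ, {y | v y ≤ 1}, isogenyBounded_discs hv hρ hF, separated_discs hv hF hρ,
    fun x hx T hT => h x hx T fun i hi => ⟨(hT i hi).1, ?_⟩⟩
  rcases (hT i hi).2 with h1 | h1
  · exact Or.inl h1
  · exact Or.inr (not_le.1 h1)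

end Pool.Agent.Helper69.ZD
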