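import Pool.Agent.Helper69.ZD.Exist
import Pool.Agent.Helper69.ZD.Master

/-! # The family of complete intersection curves is not empty -/

open MvPolynomial

namespace Pool.Agent.Helper69.ZD
open Pool.Agent.Helper11.ZP Pool.Agent.Helper11.ZU Pool.Agent.Helper20.ZD

variable {n : ℕ}

/-- if at most `d` coordinates of the points of `V` are not in `Δ`, then `dim V ≤ d` -/
theorem dim_le_of_atMost {Δ : Set ℂ} (hΔ : ∀ x ∈ Δ, ¬ IsSpecialPoint x) {V : Set (Fin n → ℂ)}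
    (hV : IsSubvariety V) {d : ℕ} (h : AtMost d Δ V) : dim V ≤ d := by
  obtain ⟨E, hE, -, x, hx, hxE⟩ := exists_spec hV infinite_special
  rw [← hE]
  exact h x hx E fun i hi hi' => hΔ _ hi' (hxE i hi)

/-- the common zero locus `∏ (ϖ x_i - l) = ϖ G_l(ϖ x)`, `1 ≤ l < n` -/
def locus (ϖ : ℂ) (G : Fin (n - 1) → MvPolynomial (Fin n) ℂ) : Set (Fin n → ℂ) :=
  {x | ∀ l : Fin (n - 1), ∏ i, (ϖ * x i - (l + 1)) = ϖ * eval (fun i => ϖ * x i) (G l)}

/-- **every point of the locus lies on an irreducible curve contained in it** -/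
theorem exists_curve (hn0 : 0 < n) (v : AbsoluteValue ℂ ℝ) (hv : IsNonarchimedean v) {ϖ : ℂ} (h0 : ϖ ≠ 0)
    (h1 : v ϖ < 1) (hn : ∀ m : ℕ, 0 < m → m < n → v (m : ℂ) = 1)
    {G : Fin (n - 1) → MvPolynomial (Fin n) ℂ} (hG : ∀ l m, v ((G l).coeff m) ≤ 1)
    (hG1 : ∀ l i, (G l).degreeOf i ≤ 1) {z : Fin n → ℂ} (hz : z ∈ locus ϖ G) :
    ∃ C : Set (Fin n → ℂ), IsSubvariety C ∧ dim C = 1 ∧ z ∈ C ∧ C ⊆ locus ϖ G := by
  classical
  set f : Fin (n - 1) → MvPolynomial (Fin n) ℂ := fun l =>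
    ∏ i, (C ϖ * X i - C ((l : ℂ) + 1)) - C ϖ * aeval (fun i => C ϖ * X i) (G l) with hf
  have hev : ∀ (x : Fin n → ℂ) (l : Fin (n - 1)), eval x (f l) =
      ∏ i, (ϖ * x i - (l + 1)) - ϖ * eval (fun i => ϖ * x i) (G l) := by
    intro x l
    rw [hf]
    simp only [map_sub, map_mul, map_prod, eval_C, eval_X]
    congr 2
    have h2 : ((aeval x : MvPolynomial (Fin n) ℂ →ₐ[ℂ] ℂ).comp
        (aeval fun i => C ϖ * X i)) = aeval fun i => ϖ * x i := by
      ext i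
      simp
    have h3 := DFunLike.congr_fun h2 (G l)
    simpa [aeval_eq_eval] using h3
  obtain ⟨C, hC, hzC, hCf, hdim⟩ := exists_component (k := n - 1) (by omega) f (z := z)
    (fun l => by rw [hev, hz l, sub_self])
  have hCL : C ⊆ locus ϖ G := fun x hx l => by
    have h2 := hCf x hx l
    rwa [hev, sub_eq_zero] at h2
  obtain ⟨F, ρ, hF, hρ, hat⟩ := family v hv h0 h1 hn hG hG1
  have h2 := dim_le_of_atMost (isogenyBounded_discs hv hρ hF).special hC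
    (d := 1) (fun x hx J hJ => hat x (hCL hx) J hJ)
  exact ⟨C, hC, by omega, hzC, hCL⟩

/-- the locus is not empty if the polynomials `G_l` vanish at `(1, …, n - 1, 0)` -/
theorem locus_nonempty (hn0 : 0 < n) {ϖ : ℂ} (h0 : ϖ ≠ 0) {G : Fin (n - 1) → MvPolynomial (Fin n) ℂ}
    (hG0 : ∀ l, eval (fun i : Fin n => if (i : ℕ) < n - 1 then ((i : ℕ) : ℂ) + 1 else 0) (G l) = 0) :
    (fun i : Fin n => (if (i : ℕ) < n - 1 then ((i : ℕ) : ℂ) + 1 else 0) / ϖ) ∈ locus ϖ G := by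
  intro l
  have h1 : (fun i : Fin n => ϖ * ((if (i : ℕ) < n - 1 then ((i : ℕ) : ℂ) + 1 else 0) / ϖ)) =
      fun i : Fin n => if (i : ℕ) < n - 1 then ((i : ℕ) : ℂ) + 1 else 0 := by
    funext i
    field_simp
  simp only [h1, hG0, mul_zero]
  refine Finset.prod_eq_zero (i := (⟨l, by have := l.2; omega⟩ : Fin n)) (Finset.mem_univ _) ?_
  have h2 := congrFun h1 (⟨l, by have := l.2; omega⟩ : Fin n)
  simp only at h2
  rw [h2, if_pos l.2, sub_self]

end Pool.Agent.Helper69.ZD
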