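import Pool.Agent.Helper69.ZD.Family
import Pool.Agent.Helper20.ZD.Spec

/-! # Components of common zero loci, and an example -/

open MvPolynomial

namespace Pool.Agent.Helper69.ZD
open Pool.Agent.Helper11.ZP Pool.Agent.Helper11.ZU Pool.Agent.Helper20.ZD

variable {n : ℕ}

/-- translation by `z` -/
noncomputable def shiftEquiv (z : Fin n → ℂ) : MvPolynomial (Fin n) ℂ ≃ₐ[ℂ] MvPolynomial (Fin n) ℂ :=
  AlgEquiv.ofAlgHom (aeval fun i => X i + C (z i)) (aeval fun i => X i - C (z i))
    (by ext i; simp) (by ext i; simp)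

lemma comap_shift (z : Fin n → ℂ) : (vanishingIdeal ℂ ({0} : Set (Fin n → ℂ))).comap
    (shiftEquiv z).toRingEquiv = vanishingIdeal ℂ {z} := by
  ext f
  rw [Ideal.mem_comap, mem_van, mem_van]
  have h1 : eval (0 : Fin n → ℂ) (shiftEquiv z f) = eval z f := by
    change eval (0 : Fin n → ℂ) (aeval (fun i => X i + C (z i)) f) = _
    have h2 : ((aeval (0 : Fin n → ℂ) : MvPolynomial (Fin n) ℂ →ₐ[ℂ] ℂ).comp
        (aeval fun i => X i + C (z i))) = aeval z := by
      ext i
      simp
    have h3 := DFunLike.congr_fun h2 f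
    simpa [aeval_eq_eval] using h3
  constructor
  · intro h y hy
    rw [Set.mem_singleton_iff] at hy
    rw [hy, ← h1]
    exact h 0 rfl
  · intro h y hy
    rw [Set.mem_singleton_iff] at hy
    rw [hy]
    exact h1.trans (h z rfl)

/-- the maximal ideals of the polynomial ring have height `n` -/
lemma height_point (z : Fin n → ℂ) : (n : ℕ∞) ≤ (vanishingIdeal ℂ ({z} : Set (Fin n → ℂ))).height := by
  have h0 : ∀ y : Fin n → ℂ, (vanishingIdeal ℂ ({y} : Set (Fin n → ℂ))).height =
      (vanishingIdeal ℂ ({0} : Set (Fin n → ℂ))).height := by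
    intro y
    rw [← comap_shift y]
    exact RingEquiv.height_comap _ _
  have h1 := Ideal.sup_isMaximal_height_eq_ringKrullDim (R := MvPolynomial (Fin n) ℂ)
  rw [MvPolynomial.ringKrullDim_of_isNoetherianRing, ringKrullDim_eq_zero_of_field, zero_add,
    Nat.card_fin] at h1
  have h2 : (⨆ (I : Ideal (MvPolynomial (Fin n) ℂ)) (_ : I.IsMaximal), I.height) = (n : ℕ∞) := by
    exact_mod_cast h1
  rw [h0 z, ← h2]
  refine iSup_le fun I => iSup_le fun hI => ?_
  obtain ⟨y, rfl⟩ := isMaximal_iff_eq_vanishingIdeal_singleton.1 hI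
  exact (h0 y).le

/-- **the components of the common zero locus of less than `n` polynomials have positive dimension** -/
theorem exists_component {k : ℕ} (hk : k < n) (f : Fin k → MvPolynomial (Fin n) ℂ) {z : Fin n → ℂ}
    (hz : ∀ l, eval z (f l) = 0) : ∃ C : Set (Fin n → ℂ), IsSubvariety C ∧ z ∈ C ∧
      (∀ x ∈ C, ∀ l, eval x (f l) = 0) ∧ 0 < dim C := by
  set I := Ideal.span (Set.range f) with hI
  set m := vanishingIdeal ℂ ({z} : Set (Fin n → ℂ)) with hm
  have hmmax : m.IsMaximal := isMaximal_iff_eq_vanishingIdeal_singleton.2 ⟨z, rfl⟩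
  have hIm : I ≤ m := by
    rw [hI, Ideal.span_le]
    rintro _ ⟨l, rfl⟩
    rw [SetLike.mem_coe, hm, mem_van]
    rintro y rfl
    exact hz l
  obtain ⟨P, hP, hPm⟩ := Ideal.exists_minimalPrimes_le hIm
  have hPprime : P.IsPrime := hP.1.1
  have hheight : P.height ≤ k := by
    refine (Ideal.height_le_card_of_mem_minimalPrimes_span (Set.finite_range f) hP).trans ?_
    have h1 : (Set.range f).ncard ≤ k := by
      have h2 := Set.ncard_image_le (f := f) (s := Set.univ) Set.finite_univ
      rw [Set.image_univ, Set.ncard_univ, Nat.card_fin] at h2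
      exact h2
    exact_mod_cast h1
  have hne : P ≠ m := by
    rintro rfl
    have h1 := (height_point z).trans hheight
    have h2 : n ≤ k := by exact_mod_cast h1
    omega
  have hvan : vanishingIdeal ℂ (zeroLocus ℂ P) = P := IsPrime.vanishingIdeal_zeroLocus P
  refine ⟨zeroLocus ℂ P, ⟨P, hPprime, rfl⟩, ?_, ?_, ?_⟩
  · rw [mem_zeroLocus_iff]
    intro g hg
    rw [aeval_eq_eval]
    exact mem_van.1 (hPm hg) z rfl
  · intro x hx l
    rw [mem_zeroLocus_iff] at hx
    have h1 := hx (f l) (hP.1.2 (Ideal.subset_span ⟨l, rfl⟩))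
    rwa [aeval_eq_eval] at h1
  · by_contra hcon
    push Not at hcon
    have h0 : dim (zeroLocus ℂ P) = 0 := by omega
    rw [dim, hvan] at h0
    have hfin : Algebra.trdeg ℂ (MvPolynomial (Fin n) ℂ ⧸ P) < Cardinal.aleph0 :=
      trdeg_lt_aleph0_of_finiteType
    have h1 : Algebra.trdeg ℂ (MvPolynomial (Fin n) ℂ ⧸ P) = 0 := by
      rcases Cardinal.toNat_eq_zero.1 h0 with h | h
      · exact h
      · exact absurd hfin (not_lt.2 h)
    have halg : Algebra.IsAlgebraic ℂ (MvPolynomial (Fin n) ℂ ⧸ P) := trdeg_eq_zero_iff.1 h1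
    have hfield : IsField (MvPolynomial (Fin n) ℂ ⧸ P) := by
      have : Algebra.IsIntegral ℂ (MvPolynomial (Fin n) ℂ ⧸ P) := halg.isIntegral
      exact isField_of_isIntegral_of_isField' (Field.toIsField ℂ)
    have hPmax : P.IsMaximal := Ideal.Quotient.maximal_of_isField _ hfield
    exact hne (hPmax.eq_of_le hmmax.ne_top hPm)

end Pool.Agent.Helper69.ZD
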