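import Pool.Agent.Helper20.ZD.Splits

/-! # Complete intersections whose equations split modulo a place -/

open MvPolynomial

namespace Pool.Agent.Helper69.ZD
open Pool.Agent.Helper11.ZP Pool.Agent.Helper11.ZU Pool.Agent.Helper20.ZD

variable {n : ℕ}

/-- the polynomials `f_l` are congruent modulo the maximal ideal of `v` to products of polynomials
`P_{l,i}(Y_i)`, of the same degrees, whose coefficients are `v`-integral and whose leading and constant
coefficients are units; for each `i` the polynomials `P_{l,i}` have no common root modulo `v` -/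
structure SplitSystem (v : AbsoluteValue ℂ ℝ) {k : ℕ} (f : Fin k → MvPolynomial (Fin n) ℂ)
    (P : Fin k → Fin n → Polynomial ℂ) : Prop where
  integral : ∀ l i m, v ((P l i).coeff m) ≤ 1
  leading : ∀ l i, v (P l i).leadingCoeff = 1
  const : ∀ l i, v ((P l i).coeff 0) = 1
  degree : ∀ l i, (f l).degreeOf i ≤ (P l i).natDegree
  congr : ∀ l m, v ((f l - ∏ i, Polynomial.aeval (X i : MvPolynomial (Fin n) ℂ) (P l i)).coeff m) < 1
  coprime : ∀ i l l', l ≠ l' → ∀ r r' : ℂ, (P l i).eval r = 0 → (P l' i).eval r' = 0 → v (r - r') = 1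

/-- **complete intersections**: all but `n - k` coordinates of a point on the common zero locus are in
the discs -/
theorem atMost_of_system (v : AbsoluteValue ℂ ℝ) (hv : IsNonarchimedean v) {k : ℕ} {s : Fin n → ℂ}
    (hs : ∀ i, 1 < v (s i)) {f : Fin k → MvPolynomial (Fin n) ℂ} {P : Fin k → Fin n → Polynomial ℂ}
    (h : SplitSystem v f P) :
    ∃ (F : Finset ℂ) (ρ : ℝ), (∀ c ∈ F, 1 < v c) ∧ ρ < 1 ∧
      AtMost (n - k) (discs v F ρ) {x | ∀ l, eval (fun i => x i / s i) (f l) = 0} := by
  classical
  choose ρ hρ1 hnear using fun l => near_roots hv (J := Finset.univ) (f := f l) (Finset.subset_univ _)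
    (P := P l) (fun i _ => ⟨h.integral l i, h.leading l i, h.const l i, h.degree l i⟩) (h.congr l)
  obtain ⟨σ, hσ1, hσ⟩ : ∃ σ : ℝ, σ < 1 ∧ ∀ l, ρ l ≤ σ := by
    by_cases hne : (Finset.univ : Finset (Fin k)).Nonempty
    · obtain ⟨l₀, -, h0⟩ := Finset.exists_max_image Finset.univ ρ hne
      exact ⟨_, hρ1 l₀, fun l => h0 l (Finset.mem_univ _)⟩
    · exact ⟨0, one_pos, fun l => absurd ⟨l, Finset.mem_univ _⟩ hne⟩
  have hroots : ∀ l i, ∀ r ∈ (P l i).roots, v r = 1 := fun l i =>
    val_root_eq hv (h.integral l i) (h.leading l i) (h.const l i)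
  refine ⟨Finset.univ.biUnion fun l => Finset.univ.biUnion fun i =>
    (P l i).roots.toFinset.image fun r => s i * r, σ, ?_, hσ1, ?_⟩
  · intro c hc
    simp only [Finset.mem_biUnion, Finset.mem_image, Multiset.mem_toFinset] at hc
    obtain ⟨l, -, i, -, r, hr, rfl⟩ := hc
    rw [map_mul, hroots l i r hr, mul_one]
    exact hs i
  · intro x hx T hT
    choose φ r hr hle using fun l => (show ∃ i, ∃ r ∈ (P l i).roots, v (x i / s i - r) ≤ ρ l by
      obtain ⟨i, -, r, hr, hle⟩ := hnear l _ (hx l)
      exact ⟨i, r, hr, hle⟩)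
    have hinj : Function.Injective φ := by
      intro l l' hll
      by_contra hne
      have h1 := h.coprime (φ l) l l' hne (r l) (r l') ((Polynomial.mem_roots'.1 (hr l)).2)
        (by rw [hll]; exact (Polynomial.mem_roots'.1 (hr l')).2)
      have h2 : r l - r l' = (x (φ l') / s (φ l') - r l') + -(x (φ l) / s (φ l) - r l) := by
        rw [hll]; ring
      have h3 : v (r l - r l') ≤ σ := by
        rw [h2]
        refine (hv _ _).trans (max_le ((hle l').trans (hσ l')) ?_)
        rw [map_neg_eq_map]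
        exact (hle l).trans (hσ l)
      rw [h1] at h3
      exact absurd hσ1 (not_lt.2 h3)
    have hdisj : Disjoint T (Finset.univ.image φ) := by
      rw [Finset.disjoint_left]
      intro i hi hi'
      obtain ⟨l, -, rfl⟩ := Finset.mem_image.1 hi'
      refine hT _ hi ⟨s (φ l) * r l, ?_, ?_⟩
      · simp only [Finset.mem_biUnion, Finset.mem_image, Multiset.mem_toFinset]
        exact ⟨l, Finset.mem_univ _, φ l, Finset.mem_univ _, r l, hr l, rfl⟩
      · have hsi : s (φ l) ≠ 0 := by
          intro h0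
          have h1 := hs (φ l)
          rw [h0, map_zero] at h1
          exact absurd h1 (by norm_num)
        have h1 : x (φ l) - s (φ l) * r l = s (φ l) * (x (φ l) / s (φ l) - r l) := by field_simp
        rw [h1, map_mul, map_mul, hroots _ _ _ (hr l), mul_one, mul_comm]
        exact mul_le_mul_of_nonneg_right ((hle l).trans (hσ l)) (v.nonneg _)
    have h1 := Finset.card_union_of_disjoint hdisj
    rw [Finset.card_image_of_injective _ hinj, Finset.card_univ, Fintype.card_fin] at h1
    have h2 := Finset.card_le_univ (T ∪ Finset.univ.image φ)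
    rw [Fintype.card_fin] at h2
    omega

lemma eval_aeval_X (P : Polynomial ℂ) (i : Fin n) (y : Fin n → ℂ) :
    eval y (Polynomial.aeval (X i : MvPolynomial (Fin n) ℂ) P) = P.eval (y i) := by
  have h4 := Polynomial.aeval_algHom_apply (aeval y : MvPolynomial (Fin n) ℂ →ₐ[ℂ] ℂ)
    (X i : MvPolynomial (Fin n) ℂ) P
  rw [aeval_X] at h4
  rw [← aeval_eq_eval]
  change (aeval y : MvPolynomial (Fin n) ℂ →ₐ[ℂ] ℂ) (Polynomial.aeval (X i) P) = _
  rw [← h4, Polynomial.coe_aeval_eq_eval]

/-- **a family of complete intersection curves**: `∏ (ϖ x_i - l) = ϖ G_l(ϖ x)`, `1 ≤ l < n`, where `G_l`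
is any polynomial with `v`-integral coefficients and of degree at most one in each variable -/
theorem family (v : AbsoluteValue ℂ ℝ) (hv : IsNonarchimedean v) {ϖ : ℂ} (h0 : ϖ ≠ 0) (h1 : v ϖ < 1)
    (hn : ∀ m : ℕ, 0 < m → m < n → v (m : ℂ) = 1) {G : Fin (n - 1) → MvPolynomial (Fin n) ℂ}
    (hG : ∀ l m, v ((G l).coeff m) ≤ 1) (hG1 : ∀ l i, (G l).degreeOf i ≤ 1) :
    ∃ (F : Finset ℂ) (ρ : ℝ), (∀ c ∈ F, 1 < v c) ∧ ρ < 1 ∧ AtMost 1 (discs v F ρ)
      {x | ∀ l : Fin (n - 1), ∏ i, (ϖ * x i - (l + 1)) = ϖ * eval (fun i => ϖ * x i) (G l)} := by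
  classical
  set P : Fin (n - 1) → Fin n → Polynomial ℂ := fun l _ => Polynomial.X - Polynomial.C ((l : ℂ) + 1)
    with hP
  set f : Fin (n - 1) → MvPolynomial (Fin n) ℂ := fun l =>
    ∏ i, Polynomial.aeval (X i : MvPolynomial (Fin n) ℂ) (P l i) - C ϖ * G l with hf
  have hunit : ∀ l : Fin (n - 1), v ((l : ℂ) + 1) = 1 := by
    intro l
    have h2 := hn (l + 1) (Nat.succ_pos _) (by have := l.2; omega)
    push_cast at h2
    exact h2
  have hsys : SplitSystem v f P := by
    refine ⟨fun l i m => ?_, fun l i => ?_, fun l i => ?_, fun l i => ?_, fun l m => ?_,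
      fun i l l' hll r r' hr hr' => ?_⟩
    · simp only [hP, Polynomial.coeff_sub, Polynomial.coeff_X, Polynomial.coeff_C]
      refine (by rw [sub_eq_add_neg]; exact hv _ _ : _ ≤ _).trans (max_le ?_ ?_)
      · split_ifs <;> simp
      · rw [map_neg_eq_map]
        split_ifs
        · exact (hunit l).le
        · simp
    · exact (congrArg v (Polynomial.leadingCoeff_X_sub_C _)).trans (map_one v)
    · simp only [hP, Polynomial.coeff_sub, Polynomial.coeff_X_zero, Polynomial.coeff_C_zero, zero_sub,
        map_neg_eq_map]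
      exact hunit l
    · have hdeg : (P l i).natDegree = 1 := Polynomial.natDegree_X_sub_C _
      rw [hdeg]
      refine (degreeOf_sub_le _ _ _).trans (max_le ?_ ?_)
      · refine (degreeOf_prod_le _ _ _).trans ?_
        refine (Finset.sum_le_sum fun j _ => degreeOf_aeval_X (P l j) j i).trans ?_
        rw [Finset.sum_ite_eq, if_pos (Finset.mem_univ _), hdeg]
      · exact (degreeOf_C_mul_le _ _ _).trans (hG1 l i)
    · have h2 : f l - ∏ i, Polynomial.aeval (X i : MvPolynomial (Fin n) ℂ) (P l i) = -(C ϖ * G l) := by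
        rw [hf]; ring
      rw [h2, coeff_neg, map_neg_eq_map, coeff_C_mul, map_mul]
      calc v ϖ * v ((G l).coeff m) ≤ v ϖ * 1 := by
            gcongr
            exact hG l m
        _ < 1 := by rw [mul_one]; exact h1
    · simp only [hP, Polynomial.eval_sub, Polynomial.eval_X, Polynomial.eval_C, sub_eq_zero] at hr hr'
      rw [hr, hr']
      have hne : (l : ℕ) ≠ l' := fun h => hll (Fin.ext h)
      have hl := l.2
      have hl' := l'.2
      rcases Nat.lt_or_gt_of_ne hne with h | h
      · have h2 := hn (l' - l) (by omega) (by omega)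
        rw [Nat.cast_sub h.le] at h2
        rw [← map_neg_eq_map v, ← h2]
        congr 1
        ring
      · have h2 := hn (l - l') (by omega) (by omega)
        rw [Nat.cast_sub h.le] at h2
        rw [← h2]
        congr 1
        ring
  have hs : ∀ _ : Fin n, 1 < v (1 / ϖ) := by
    intro _
    rw [map_div₀, map_one, one_lt_div (v.pos h0)]
    exact h1
  obtain ⟨F, ρ, hF, hρ, h⟩ := atMost_of_system v hv hs hsys
  refine ⟨F, ρ, hF, hρ, fun x hx T hT => (h x (fun l => ?_) T hT).trans (by omega)⟩
  have h2 := hx l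
  have h3 : (fun i => x i / (1 / ϖ)) = fun i => ϖ * x i := by
    funext i
    field_simp
  rw [h3]
  simp only [hf, map_sub, map_prod, map_mul, eval_C]
  rw [sub_eq_zero, ← h2]
  refine Finset.prod_congr rfl fun i _ => ?_
  rw [eval_aeval_X]
  simp [hP]

end Pool.Agent.Helper69.ZD
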