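import Pool.Agent.Helper11.LC.Rig
import Pool.Agent.Helper11.LC.Root
import Pool.Agent.Helper11.ZV.Main
import Pool.Agent.Helper69.ZD.Master

/-! # Translates by rational vectors -/

open MvPolynomial Finset

namespace Pool.Agent.Helper69.ZD
open Pool.Agent.Helper11.ZP Pool.Agent.Helper11.ZU Pool.Agent.Helper11.ZV Pool.Agent.Helper20.ZT
  Pool.Agent.Helper20.ZT.Prim Pool.Agent.Helper20.ZD Pool.Agent.Helper11.ZI

/-- the discs of relative radius `|p|` around the elements of `F` -/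
def discsO (O : ValuationSubring ℂ) (p : ℕ) (F : Finset ℂ) : Set ℂ :=
  {x | ∃ c ∈ F, ∃ w ∈ O, x = c * (1 + p * w)}

section
variable {O : ValuationSubring ℂ} {p : ℕ}

lemma val_near (hpO : (p : ℂ) ∈ O.nonunits) {w : ℂ} (hw : w ∈ O) : O.valuation (1 + (p : ℂ) * w) = 1 :=
  unit_of_sub O (lt_one_mul O ((val_non O).1 hpO) hw)

lemma exp_unique {Γ : Type*} [LinearOrderedCommGroupWithZero Γ] {x y : Γ} (hx : 1 < x) {a b a' b' : ℕ}
    (h : x ^ a = y ^ b) (h' : x ^ a' = y ^ b') (hab : a.Coprime b) (hab' : a'.Coprime b') :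
    a = a' ∧ b = b' := by
  have h1 : x ^ (a * b') = x ^ (a' * b) := by
    rw [pow_mul, h, pow_mul, h', ← pow_mul, ← pow_mul, mul_comm]
  have h2 : a * b' = a' * b := pow_right_injective₀ (zero_lt_one.trans hx) hx.ne' h1
  have h3 : a ∣ a' := hab.dvd_of_dvd_mul_right (Dvd.intro _ h2)
  have h4 : a' ∣ a := hab'.dvd_of_dvd_mul_right (Dvd.intro _ h2.symm)
  have h5 : a = a' := Nat.dvd_antisymm h3 h4
  subst h5
  refine ⟨rfl, ?_⟩
  have h6 : b ∣ b' := by
    refine hab.symm.dvd_of_dvd_mul_left ?_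
    rw [h2]
    exact Dvd.intro_left _ rfl
  have h7 : b' ∣ b := by
    refine hab'.symm.dvd_of_dvd_mul_left ?_
    rw [← h2]
    exact Dvd.intro_left _ rfl
  exact Nat.dvd_antisymm h6 h7

/-- **the degrees of the isogenies between two discs are bounded** -/
theorem pair_boundO (hp : p.Prime) (hpO : (p : ℂ) ∈ O.nonunits) {c c' : ℂ} (hc0 : c ≠ 0) (hc0' : c' ≠ 0)
    (hc : O.valuation c⁻¹ ≤ O.valuation (p : ℂ)) (hc' : O.valuation c'⁻¹ ≤ O.valuation (p : ℂ)) :
    ∃ M : ℕ, ∀ (w w' : ℂ) (N : ℕ), w ∈ O → w' ∈ O →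
      CyclicIsog N (c * (1 + p * w)) (c' * (1 + p * w')) → N ≤ M := by
  have vp := (val_non O).1 hpO
  have hp0 : (p : ℂ) ≠ 0 := by exact_mod_cast hp.ne_zero
  have hpmem : (p : ℂ) ∈ O := (val_mem O).2 vp.le
  have vc1 : 1 < O.valuation c := by
    have h1 := hc.trans_lt vp
    rw [map_inv₀] at h1
    have h2 : O.valuation c ≠ 0 := (Valuation.ne_zero_iff _).2 hc0
    exact (inv_lt_one₀ (zero_lt_iff.2 h2)).1 h1
  -- the shape of an isogeny
  have shape : ∀ (w w' : ℂ) (N : ℕ), 0 < N → w ∈ O → w' ∈ O →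
      CyclicIsog N (c * (1 + p * w)) (c' * (1 + p * w')) →
      ∃ (a b g : ℕ) (ζ : ℂ), 0 < a ∧ 0 < b ∧ a.Coprime b ∧ 0 < g ∧ N = a * b * g ^ 2 ∧
        IsPrimitiveRoot ζ g ∧ O.valuation c ^ a = O.valuation c' ^ b ∧
        Pool.Agent.Helper11.LC.Near O (p : ℂ) (c ^ a / (ζ * c' ^ b)) := by
    intro w w' N hN hw hw' h
    have hm : Fact (0 < (N : ℤ)) := ⟨by exact_mod_cast hN⟩
    have hrel := (cyclicIsog_iff hN).1 h
    have v1 := val_near hpO hw
    have v2 := val_near hpO hw'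
    have h10 : (1 + (p : ℂ) * w) ≠ 0 := by
      intro h0; rw [h0, map_zero] at v1; exact zero_ne_one v1
    have h20 : (1 + (p : ℂ) * w') ≠ 0 := by
      intro h0; rw [h0, map_zero] at v2; exact zero_ne_one v2
    obtain ⟨a, b, g, ζ, u, ha, hb, hab, hg, hNabg, hζ, hu, heq⟩ :=
      Pool.Agent.Helper11.LC.primPoly_rig (N : ℤ) ℂ O (x := c * (1 + p * w)) (y := c' * (1 + p * w'))
        (P := (p : ℂ)) hpO hp0 (mul_ne_zero hc0 h10) (mul_ne_zero hc0' h20)
        (by rw [mul_inv, map_mul, map_inv₀ O.valuation (1 + (p : ℂ) * w), v1, inv_one, mul_one]; exact hc)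
        (by rw [mul_inv, map_mul, map_inv₀ O.valuation (1 + (p : ℂ) * w'), v2, inv_one, mul_one]; exact hc')
        hrel
    have vζ : O.valuation ζ = 1 := by
      have h1 := congrArg O.valuation hζ.pow_eq_one
      rw [map_pow, map_one] at h1
      exact (pow_eq_one_iff_of_nonneg zero_le hg.ne').1 h1
    have hζ0 : ζ ≠ 0 := hζ.ne_zero hg.ne'
    have heq' : (c * (1 + p * w)) ^ a = ζ * (c' * (1 + p * w')) ^ b * (1 + p * u) := heq
    have vu := val_near hpO hu
    have hu0 : (1 + (p : ℂ) * u) ≠ 0 := by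
      intro h0; rw [h0, map_zero] at vu; exact zero_ne_one vu
    refine ⟨a, b, g, ζ, ha, hb, hab, hg, by exact_mod_cast hNabg, hζ, ?_, ?_⟩
    · have h1 := congrArg O.valuation heq'
      rw [map_pow, map_mul, v1, mul_one, map_mul, map_mul, vζ, one_mul, vu, mul_one, map_pow, map_mul, v2,
        mul_one] at h1
      exact h1
    · have h1 : c ^ a / (ζ * c' ^ b) = (1 + p * w') ^ b * (1 + p * u) / (1 + p * w) ^ a := by
        rw [div_eq_div_iff (mul_ne_zero hζ0 (pow_ne_zero _ hc0')) (pow_ne_zero _ h10)]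
        have h2 : c ^ a * (1 + p * w) ^ a = (c * (1 + p * w)) ^ a := by rw [mul_pow]
        rw [h2, heq', mul_pow]
        ring
      rw [h1]
      have n1 : Pool.Agent.Helper11.LC.Near O (p : ℂ) (1 + p * w') := ⟨w', hw', rfl⟩
      have n2 : Pool.Agent.Helper11.LC.Near O (p : ℂ) (1 + p * u) := ⟨u, hu, rfl⟩
      have n3 : Pool.Agent.Helper11.LC.Near O (p : ℂ) (1 + p * w) := ⟨w, hw, rfl⟩
      exact ((n1.pow hpmem b).mul hpmem n2).div hpO (n3.pow hpmem a)
  by_cases hex : ∃ a b : ℕ, 0 < a ∧ 0 < b ∧ a.Coprime b ∧ O.valuation c ^ a = O.valuation c' ^ b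
  · obtain ⟨a₀, b₀, ha₀, hb₀, hab₀, hv₀⟩ := hex
    obtain ⟨G, hG⟩ := (Pool.Agent.Helper11.LC.finite_orders O hp hpO one_pos (c ^ a₀ / c' ^ b₀)).bddAbove
    refine ⟨a₀ * b₀ * G ^ 2, fun w w' N hw hw' h => ?_⟩
    rcases Nat.eq_zero_or_pos N with hN | hN
    · rw [hN]; exact Nat.zero_le _
    obtain ⟨a, b, g, ζ, ha, hb, hab, hg, hNabg, hζ, hv, hnear⟩ := shape w w' N hN hw hw' h
    obtain ⟨rfl, rfl⟩ := exp_unique vc1 hv hv₀ hab hab₀
    have hζ0 : ζ ≠ 0 := hζ.ne_zero hg.ne'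
    have hgG : g ≤ G := by
      apply hG
      refine ⟨hg, ζ, hζ, ?_⟩
      rw [pow_one]
      obtain ⟨u, hu, hu2⟩ := hnear
      have vζ : O.valuation ζ = 1 := by
        have h1 := congrArg O.valuation hζ.pow_eq_one
        rw [map_pow, map_one] at h1
        exact (pow_eq_one_iff_of_nonneg zero_le hg.ne').1 h1
      have h2 : c ^ a / c' ^ b = ζ * (1 + p * u) := by
        rw [← hu2]
        field_simp
      rw [h2]
      have h3 : ζ - ζ * (1 + p * u) = -(ζ * (p * u)) := by ring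
      rw [h3, Valuation.map_neg, map_mul, vζ, one_mul, map_mul]
      exact mul_le_of_le_one_right zero_le ((val_mem O).1 hu)
    rw [hNabg]
    exact Nat.mul_le_mul_left _ (Nat.pow_le_pow_left hgG 2)
  · refine ⟨0, fun w w' N hw hw' h => ?_⟩
    by_contra hcon
    push Not at hcon
    obtain ⟨a, b, g, ζ, ha, hb, hab, hg, hNabg, hζ, hv, hnear⟩ := shape w w' N hcon hw hw' h
    exact hex ⟨a, b, ha, hb, hab, hv⟩

/-- **the discs are isogeny-bounded** -/
theorem isogenyBounded_discsO (hp : p.Prime) (hpO : (p : ℂ) ∈ O.nonunits) {F : Finset ℂ}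
    (hF : ∀ c ∈ F, c ≠ 0 ∧ O.valuation c⁻¹ ≤ O.valuation (p : ℂ)) : IsogenyBounded (discsO O p F) := by
  classical
  have vp := (val_non O).1 hpO
  refine ⟨?_, ?_⟩
  · rintro x ⟨c, hc, w, hw, rfl⟩ hx
    obtain ⟨h0, h1⟩ := hF c hc
    have h2 : c * (1 + p * w) ∈ O := mem_of_isIntegral_int O hx.isIntegral
    rw [val_mem, map_mul, val_near hpO hw, mul_one] at h2
    have h3 := h1.trans_lt vp
    rw [map_inv₀] at h3
    have h4 : O.valuation c ≠ 0 := (Valuation.ne_zero_iff _).2 h0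
    exact absurd ((inv_lt_one₀ (zero_lt_iff.2 h4)).1 h3) (not_lt.2 h2)
  · choose! M hM using fun c (hc : c ∈ F) c' (hc' : c' ∈ F) =>
      pair_boundO hp hpO (hF c hc).1 (hF c' hc').1 (hF c hc).2 (hF c' hc').2
    refine ⟨F.sup fun c => F.sup fun c' => M c c', ?_⟩
    rintro x ⟨c, hc, w, hw, rfl⟩ y ⟨c', hc', w', hw', rfl⟩ N h
    refine (hM c hc c' hc' w w' N hw hw' h).trans ?_
    exact (Finset.le_sup (f := fun c' => M c c') hc').trans
      (Finset.le_sup (f := fun c => F.sup fun c' => M c c') hc)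

/-- the valuation ring is separated from the discs -/
lemma separated_discsO (hpO : (p : ℂ) ∈ O.nonunits) {F : Finset ℂ}
    (hF : ∀ c ∈ F, c ≠ 0 ∧ O.valuation c⁻¹ ≤ O.valuation (p : ℂ)) :
    Separated (discsO O p F) {y | y ∈ O} := by
  have vp := (val_non O).1 hpO
  rintro x ⟨c, hc, w, hw, rfl⟩ y hy N hN h
  have hm : Fact (0 < (N : ℤ)) := ⟨by exact_mod_cast hN⟩
  have h1 := (cyclicIsog_iff hN).1 h
  have h2 : c * (1 + p * w) ∈ O := mem_of_rel (K := ℂ) O (primPoly_monic (N : ℤ)) hy h1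
  obtain ⟨h0, h3⟩ := hF c hc
  rw [val_mem, map_mul, val_near hpO hw, mul_one] at h2
  have h4 := h3.trans_lt vp
  rw [map_inv₀] at h4
  have h5 : O.valuation c ≠ 0 := (Valuation.ne_zero_iff _).2 h0
  exact absurd ((inv_lt_one₀ (zero_lt_iff.2 h5)).1 h4) (not_lt.2 h2)

end

variable {n : ℕ}

/-- a number close to a rational number with a large denominator lies in its disc -/
lemma mem_disc {O : ValuationSubring ℂ} {p : ℕ} (hp : p.Prime) (hpO : (p : ℂ) ∈ O.nonunits) {M : ℕ}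
    (hM : 0 < M) {α : ℚ} (hα : padicValNat p M < padicValNat p α.den) {x : ℂ}
    (hx : (M : ℂ) * (x - (α : ℂ)) ∈ O) : ∃ w ∈ O, x = (α : ℂ) * (1 + p * w) := by
  have := Fact.mk hp
  set k := padicValNat p M with hk
  set e := padicValNat p α.den with he
  obtain ⟨u, v, hu, hv, h⟩ := rat_shape hp α (dvd_of_one_le_padicValNat (by omega))
  rw [← he] at h
  have h' : (α : ℂ) = (u : ℂ) / ((p : ℂ) ^ e * v) := by rw [h]; push_cast; rfl
  obtain ⟨M₁, hM₁, hM₁2⟩ : ∃ M₁ : ℕ, M = p ^ k * M₁ ∧ ¬ p ∣ M₁ := by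
    obtain ⟨M₁, h⟩ := pow_padicValNat_dvd (p := p) (n := M)
    refine ⟨M₁, h, fun hcon => ?_⟩
    apply pow_succ_padicValNat_not_dvd (p := p) (n := M) hM.ne'
    rw [pow_succ]
    conv_rhs => rw [h]
    exact mul_dvd_mul_left _ hcon
  have hM₁K : (M : ℂ) = (p : ℂ) ^ k * M₁ := by rw [hM₁]; push_cast; rfl
  have vM₁ : O.valuation (M₁ : ℂ) = 1 := by
    have := int_unit O hp hpO (u := (M₁ : ℤ)) (fun h => hM₁2 (by exact_mod_cast h))
    simpa using this
  have hx' : (p : ℂ) ^ k * (x - (u : ℂ) / ((p : ℂ) ^ e * v)) ∈ O := by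
    rw [hM₁K, mul_right_comm, val_mem, map_mul, vM₁, mul_one, ← val_mem, h'] at hx
    exact hx
  obtain ⟨c, ⟨w, hw, hc⟩, hxc⟩ := translate_congM hp hpO hu hv hα.le hx'
  refine ⟨(p : ℂ) ^ (e - k - 1) * w, ?_, ?_⟩
  · exact O.mul_mem _ _ (O.pow_mem ((val_mem O).2 ((val_non O).1 hpO).le) _) hw
  · rw [hxc, h', hc]
    have h1 : (p : ℂ) ^ (e - k) = p * p ^ (e - k - 1) := by
      rw [← pow_succ']
      congr 1
      omega
    push_cast
    rw [h1]
    ring

/-- **translates**: the condition holds for the translates of a set in general position at the cusps -/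
theorem locally_translate {d M : ℕ} (hM : 0 < M) {Z : Set (Fin n → ℂ)}
    (hgp : ∀ p : ℕ, p.Prime → PlaceM M d Z p) {a : Fin n → ℚ} (ha : CommonFactor (2 * M) d a) :
    LocallyAtMost d (translate Z a) := by
  classical
  intro J hJ
  obtain ⟨p, hp, hpa, hpM⟩ := ha.strong (by omega) J hJ
  obtain ⟨O, hpO, hO⟩ := hgp p hp
  have := Fact.mk hp
  have hM0 : (M : ℂ) ≠ 0 := by exact_mod_cast hM.ne'
  have hle : padicValNat p M ≤ padicValNat p (2 * M) := by
    rw [padicValNat.mul two_ne_zero hM.ne']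
    exact Nat.le_add_left _ _
  set F : Finset ℂ := (univ.filter fun i => padicValNat p (2 * M) < padicValNat p (a i).den).image
    fun i => (a i : ℂ) with hF
  have hF2 : ∀ c ∈ F, c ≠ 0 ∧ O.valuation c⁻¹ ≤ O.valuation (p : ℂ) := by
    intro c hc
    obtain ⟨i, hi, rfl⟩ := mem_image.1 hc
    have hi' := (mem_filter.1 hi).2
    obtain ⟨u, v, hu, hv, h⟩ := rat_shape hp (a i) (dvd_of_one_le_padicValNat (by omega))
    have vu := int_unit O hp hpO hu
    have vv := int_unit O hp hpO hv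
    have hu0 : (u : ℂ) ≠ 0 := by intro h0; rw [h0, map_zero] at vu; exact zero_ne_one vu
    have hv0 : (v : ℂ) ≠ 0 := by intro h0; rw [h0, map_zero] at vv; exact zero_ne_one vv
    have hp0 : (p : ℂ) ≠ 0 := by exact_mod_cast hp.ne_zero
    have h' : (a i : ℂ) = (u : ℂ) / ((p : ℂ) ^ (padicValNat p (a i).den) * v) := by
      conv_lhs => rw [h]
      push_cast
      rfl
    rw [h']
    refine ⟨div_ne_zero hu0 (mul_ne_zero (pow_ne_zero _ hp0) hv0), ?_⟩
    rw [inv_div, map_div₀, vu, div_one, map_mul, vv, mul_one, map_pow]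
    obtain ⟨k, hk⟩ : ∃ k, padicValNat p (a i).den = k + 1 := ⟨padicValNat p (a i).den - 1, by omega⟩
    rw [hk, pow_succ]
    exact mul_le_of_le_one_left zero_le (pow_le_one₀ zero_le ((val_non O).1 hpO).le)
  refine ⟨discsO O p F, {y | y ∈ O}, isogenyBounded_discsO hp hpO hF2, separated_discsO hpO hF2, ?_⟩
  intro x hx T hT
  by_contra hcon
  push Not at hcon
  obtain ⟨J', hJ'T, hJ'⟩ := exists_subset_card_eq (show d + 1 ≤ T.card from hcon)
  obtain ⟨f, hf1, hf2, hf3, hf4⟩ := hO J' hJ'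
  obtain ⟨i, hi, hiO⟩ := dominM (K := ℂ) O hM0 hf1 (fun m => hf2 m) hf3
    (x := fun i => x i - (a i : ℂ)) (hf4 _ hx)
  obtain ⟨hiΔ, hiJ⟩ := hT i (hJ'T hi)
  by_cases hlarge : padicValNat p (2 * M) < padicValNat p (a i).den
  · obtain ⟨w, hw, hxw⟩ := mem_disc hp hpO hM (hle.trans_lt hlarge) hiO
    exact hiΔ ⟨(a i : ℂ), mem_image.2 ⟨i, mem_filter.2 ⟨mem_univ _, hlarge⟩, rfl⟩, w, hw, hxw⟩
  · have hiJ' : i ∉ J := fun h => hlarge (hpa i h)
    have hxiO : x i ∉ O := hiJ.resolve_left hiJ'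
    have hpM2 : ¬ p ∣ 2 * M := fun h => hlarge (hpM h i)
    have hpM3 : ¬ (p : ℤ) ∣ (M : ℤ) := fun h => hpM2 ((by exact_mod_cast h : p ∣ M).mul_left 2)
    have vM := int_unit O hp hpO hpM3
    rw [Int.cast_natCast] at vM
    have h1 : x i - (a i : ℂ) ∈ O := by
      rw [val_mem, map_mul, vM, one_mul, ← val_mem] at hiO
      exact hiO
    rw [padicValNat.eq_zero_of_not_dvd hpM2] at hlarge
    have h3 : (a i : ℂ) ∈ O := by
      rw [← O.valuation_le_one_iff]
      apply val_rat_le O hp hpO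
      intro h4
      exact hlarge (one_le_padicValNat_of_dvd (a i).den_nz h4)
    apply hxiO
    have := O.add_mem _ _ h1 h3
    simpa using this

/-- the rational translates of a set in general position at the cusps -/
theorem locally_translate_of_genPos {d : ℕ} {Z : Set (Fin n → ℂ)} (hZ : GenPos d Z) :
    ∃ M : ℕ, 0 < M ∧ ∀ a : Fin n → ℚ, CommonFactor M d a → LocallyAtMost d (translate Z a) := by
  obtain ⟨M, hM, h⟩ := exists_placeM_of_genPos hZ
  exact ⟨2 * M, by omega, fun a ha => locally_translate hM h ha⟩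

end Pool.Agent.Helper69.ZD
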